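import Pool.Agent.Helper95.Lin.GoalsG
import Pool.Agent.Helper95.Lin.Basics

/-! # Packet CAREQ: equivariance of the Caratheodory volume -/

open Complex Metric Set Filter Topology MeasureTheory
open scoped ContDiff ComplexConjugate ComplexOrder Pointwise

namespace Pool.Agent.Helper71.Lin

open Pool.Agent.Helper95.Lin

theorem norm_det_vm_comp {b m : ℕ} {D : Set (Cn b)} {Γ : Type} [Group Γ] {g : Γ → Cn b → Cn b}
    (hg : GAct D g) (V : Fin m → Cn b → Cn b) (A : Γ →* Matrix (Fin m) (Fin m) ℝ)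
    (hA : ∀ γ i, ∀ z ∈ D, fderiv ℂ (g γ) z (V i z) = ∑ k, A γ k i • V k (g γ z))
    (γ : Γ) {z : Cn b} (hz : z ∈ D) (h : Fin m → Cn b → ℂ)
    (hh : ∀ j, DifferentiableOn ℂ (h j) D) :
    ‖(vm V (fun j => h j ∘ g γ) z).det‖ = |(A γ).det| * ‖(vm V h (g γ z)).det‖ := by
  have e : vm V (fun j => h j ∘ g γ) z =
      ((Complex.ofRealHom.mapMatrix (A γ)).transpose) * vm V h (g γ z) := by
    ext i j
    have h1 : DifferentiableAt ℂ (h j) (g γ z) :=
      (hh j).differentiableAt (hg.isOpen.mem_nhds (hg.maps γ z hz))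
    have h2 : DifferentiableAt ℂ (g γ) z :=
      (hg.holo γ).differentiableAt (hg.isOpen.mem_nhds hz)
    rw [Matrix.mul_apply]
    simp only [vm, Matrix.of_apply, Matrix.transpose_apply, RingHom.mapMatrix_apply,
      Matrix.map_apply, Complex.ofRealHom_eq_coe]
    rw [fderiv_comp z h1 h2, ContinuousLinearMap.comp_apply, hA γ i z hz, map_sum]
    refine Finset.sum_congr rfl fun k _ => ?_
    have e1 : A γ k i • V k (g γ z) = ((A γ k i : ℝ) : ℂ) • V k (g γ z) := by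
      ext l
      simp
    rw [e1, ContinuousLinearMap.map_smul, smul_eq_mul]
  rw [e, Matrix.det_mul, Matrix.det_transpose, ← RingHom.map_det, norm_mul,
    Complex.ofRealHom_eq_coe, Complex.norm_real, Real.norm_eq_abs]

theorem careq : S_CAREQ := by
  intro b m D Γ _ g hg V A _ hA γ z hz
  have hy : g γ z ∈ D := hg.maps γ z hz
  unfold carF
  rw [← smul_eq_mul, ← Real.sSup_smul_of_nonneg (abs_nonneg _)]
  congr 1
  ext r
  rw [Set.mem_smul_set]
  constructor
  · rintro ⟨s, ⟨f, hf, rfl⟩, rfl⟩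
    refine ⟨fun j => f j ∘ g γ, ?_, ?_⟩
    · intro j
      exact ⟨(hf j).1.comp (hg.holo γ) (hg.maps γ), fun w hw => (hf j).2 _ (hg.maps γ w hw)⟩
    · rw [norm_det_vm_comp hg V A hA γ hz f fun j => (hf j).1, smul_eq_mul]
  · rintro ⟨f, hf, rfl⟩
    have hf' : Adm D fun j => f j ∘ g γ⁻¹ := by
      intro j
      exact ⟨(hf j).1.comp (hg.holo γ⁻¹) (hg.maps γ⁻¹),
        fun w hw => (hf j).2 _ (hg.maps γ⁻¹ w hw)⟩
    refine ⟨_, ⟨fun j => f j ∘ g γ⁻¹, hf', rfl⟩, ?_⟩
    rw [smul_eq_mul, ← norm_det_vm_comp hg V A hA γ hz _ fun j => (hf' j).1]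
    congr 2
    ext i j
    simp only [vm, Matrix.of_apply]
    have : ((f j ∘ g γ⁻¹) ∘ g γ) =ᶠ[𝓝 z] f j := by
      filter_upwards [hg.isOpen.mem_nhds hz] with x hx
      simp only [Function.comp_apply, hg.inv_left γ hx]
    rw [this.fderiv_eq]

end Pool.Agent.Helper71.Lin
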