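import Pool.Agent.Helper95.Lin.GoalsA

/-! # Packet CLEUP: upper bound for the Caratheodory distance -/

open Complex Metric Set Filter Topology MeasureTheory
open scoped ContDiff ComplexConjugate ComplexOrder Pointwise

namespace Pool.Agent.Helper71.Lin

open Pool.Agent.Helper95.Lin

theorem cleup : S_CLEUP := by
  intro b D hD K hKD hK
  obtain ⟨δ, hδ, hsub⟩ := hK.exists_cthickening_subset_open hD hKD
  have hball : ∀ x ∈ K, ball x δ ⊆ D := fun x hx =>
    (ball_subset_closedBall.trans (closedBall_subset_cthickening hx δ)).trans hsub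
  refine ⟨2 / δ, δ / 2, by positivity, by positivity, ?_⟩
  intro x hx y hxy
  have hy : y ∈ ball x δ := by
    rw [mem_ball, dist_comm, dist_eq_norm]
    linarith
  refine ⟨hball x hx hy, ?_⟩
  intro f hf h1
  have h := Complex.dist_le_div_mul_dist_of_mapsTo_ball (f := f) (c := x) (R₁ := δ) (R₂ := 2)
    (hf.mono (hball x hx)) (fun z hz => by
      rw [mem_closedBall, dist_eq_norm]
      calc ‖f z - f x‖ ≤ ‖f z‖ + ‖f x‖ := norm_sub_le _ _
        _ ≤ 1 + 1 := add_le_add (h1 _ (hball x hx hz)) (h1 _ (hKD hx))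
        _ = 2 := by norm_num) hy
  rw [dist_comm, dist_comm y x, dist_eq_norm, dist_eq_norm] at h
  exact h

end Pool.Agent.Helper71.Lin
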