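import Pool.Agent.Helper95.Lin.GoalsA

/-! # Packet LCMP: comparison of norms on generators -/

open Complex Metric Set Filter Topology MeasureTheory
open scoped ContDiff ComplexConjugate ComplexOrder Pointwise

namespace Pool.Agent.Helper71.Lin

open Pool.Agent.Helper95.Lin

theorem lcmp : S_CMP → S_LCMP := by
  intro hcmp b D Γ _ g hg K₀ hK₀D hK₀ hint K hKD hK
  obtain ⟨C, η, hC, hη, h⟩ := hcmp hg K₀ hK₀D hK₀ hint K hKD hK
  refine ⟨C, hC, ?_⟩
  intro V hV s hs z hz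
  obtain ⟨z₀, hz₀⟩ := hint
  have hs0 : 0 ≤ s := (norm_nonneg _).trans (hs z₀ (interior_subset hz₀))
  refine le_of_forall_pos_le_add fun ε' hε' => ?_
  set ε : ℝ := ε' / (C + 1) with hεdef
  have hC1 : 0 < C + 1 := by linarith
  have hε : 0 < ε := div_pos hε' hC1
  have hεC : ε * (C + 1) = ε' := by rw [hεdef]; field_simp
  obtain ⟨σ₀, hσ₀, hσ⟩ := hV.2.2 (K₀ ∪ K) (union_subset hK₀D hKD) (hK₀.union hK) ε hε
  have hsε : 0 < s + ε := by linarith
  set σ : ℝ := min (σ₀ / 2) (η / (s + ε)) with hσdef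
  have hσp : 0 < σ := lt_min (by positivity) (by positivity)
  have hσ1 : σ < σ₀ := (min_le_left _ _).trans_lt (by linarith)
  have hσ2 : (s + ε) * σ ≤ η := by
    have : σ ≤ η / (s + ε) := min_le_right _ _
    rw [le_div_iff₀ hsε] at this
    linarith
  obtain ⟨γ, hγ⟩ := hσ σ hσp hσ1
  have h1 : ∀ w ∈ K₀, ‖g γ w - w‖ ≤ (s + ε) * σ := by
    intro w hw
    have e : g γ w - w = (g γ w - w - σ • V w) + σ • V w := by abel
    rw [e]
    calc ‖(g γ w - w - σ • V w) + σ • V w‖ ≤ ‖g γ w - w - σ • V w‖ + ‖σ • V w‖ :=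
          norm_add_le _ _
      _ ≤ ε * σ + σ * s := by
          refine add_le_add (hγ w (Or.inl hw)) ?_
          rw [norm_smul, Real.norm_of_nonneg hσp.le]
          exact mul_le_mul_of_nonneg_left (hs w hw) hσp.le
      _ = (s + ε) * σ := by ring
  have h2 := h γ _ hσ2 h1 z hz
  have h3 : σ * ‖V z‖ ≤ σ * (C * (s + ε) + ε) := by
    have e : σ • V z = (g γ z - z) - (g γ z - z - σ • V z) := by abel
    have e1 : ‖σ • V z‖ ≤ ‖g γ z - z‖ + ‖g γ z - z - σ • V z‖ :=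
      (congrArg norm e).le.trans (norm_sub_le _ _)
    calc σ * ‖V z‖ = ‖σ • V z‖ := by rw [norm_smul, Real.norm_of_nonneg hσp.le]
      _ ≤ ‖g γ z - z‖ + ‖g γ z - z - σ • V z‖ := e1
      _ ≤ C * ((s + ε) * σ) + ε * σ := add_le_add h2 (hγ z (Or.inr hz))
      _ = σ * (C * (s + ε) + ε) := by ring
  have h4 := le_of_mul_le_mul_left h3 hσp
  nlinarith

end Pool.Agent.Helper71.Lin
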