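import Pool.Agent.Helper95.Lin.GoalsA

/-! # Packet LLIM: generators are closed under locally uniform limits -/

open Complex Metric Set Filter Topology MeasureTheory
open scoped ContDiff ComplexConjugate ComplexOrder

namespace Pool.Agent.Helper71.Lin

open Pool.Agent.Helper95.Lin

theorem llim : S_LLIM := by
  intro b D Γ _ g hg W hW hW0 hV
  refine ⟨hW, hW0, ?_⟩
  intro K hKD hK ε hε
  obtain ⟨V, hVL, hVW⟩ := hV K hKD hK (ε / 2) (by positivity)
  obtain ⟨σ₀, hσ₀, h⟩ := hVL.2.2 K hKD hK (ε / 2) (by positivity)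
  refine ⟨σ₀, hσ₀, ?_⟩
  intro σ h0 h1
  obtain ⟨γ, hγ⟩ := h σ h0 h1
  refine ⟨γ, ?_⟩
  intro z hz
  have e : g γ z - z - σ • W z = (g γ z - z - σ • V z) + σ • (V z - W z) := by
    rw [smul_sub]; abel
  rw [e]
  calc ‖(g γ z - z - σ • V z) + σ • (V z - W z)‖
      ≤ ‖g γ z - z - σ • V z‖ + ‖σ • (V z - W z)‖ := norm_add_le _ _
    _ ≤ ε / 2 * σ + σ * (ε / 2) := by
        refine add_le_add (hγ z hz) ?_
        rw [norm_smul, Real.norm_of_nonneg h0.le]
        exact mul_le_mul_of_nonneg_left (hVW z hz) h0.le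
    _ = ε * σ := by ring

end Pool.Agent.Helper71.Lin
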