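import Pool.Agent.Helper95.Lin.GoalsG
import Pool.Agent.Helper95.Lin.GoalsA
import Pool.Agent.Helper95.Lin.Basics

/-! # Packet NOAB -/

open Complex Metric Set Filter Topology MeasureTheory
open scoped ContDiff ComplexConjugate ComplexOrder Pointwise

namespace Pool.Agent.Helper71.Lin

open Pool.Agent.Helper95.Lin

/-- Gluing of forward curves of `IW` and `-IW`. -/
theorem glue_curve {b : ℕ} {D : Set (Cn b)} {W : Cn b → Cn b} {z : Cn b} {x y : ℝ → Cn b}
    (hx : SolInf D (fun p => I • W p) z x) (hy : SolInf D (fun p => -(I • W p)) z y) :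
    ∃ η : ℝ → Cn b, η 0 = z ∧ ∀ t, η t ∈ D ∧ HasDerivAt η (I • W (η t)) t := by
  obtain ⟨hx0, hx⟩ := hx
  obtain ⟨hy0, hy⟩ := hy
  let η : ℝ → Cn b := fun t => if 0 ≤ t then x t else y (-t)
  have e1 : ∀ t, 0 ≤ t → η t = x t := fun t ht => if_pos ht
  have e2 : ∀ t, t ≤ 0 → η t = y (-t) := by
    intro t ht
    rcases ht.lt_or_eq with h | h
    · exact if_neg (not_le.2 h)
    · rw [h, e1 0 le_rfl, hx0, neg_zero, hy0]
  have d1 : ∀ t, 0 ≤ t → HasDerivWithinAt η (I • W (η t)) (Ici 0) t := by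
    intro t ht
    have h := (hx t ht).2
    rw [e1 t ht]
    exact h.congr (fun s hs => e1 s hs) (e1 t ht)
  have d2 : ∀ t, t ≤ 0 → HasDerivWithinAt η (I • W (η t)) (Iic 0) t := by
    intro t ht
    have h := (hy (-t) (by linarith)).2
    rw [e2 t ht]
    have h2 : HasDerivWithinAt (fun s : ℝ => -s) (-1) (Iic 0) t :=
      (hasDerivAt_neg t).hasDerivWithinAt
    have h3 := HasDerivWithinAt.scomp t h h2 (fun s hs => by
      simp only [mem_Iic] at hs
      simp only [mem_Ici]
      linarith)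
    have h4 : (-1 : ℝ) • (-(I • W (y (-t)))) = I • W (y (-t)) := by
      rw [neg_smul, one_smul, neg_neg]
    rw [h4] at h3
    exact h3.congr (fun s hs => e2 s hs) (e2 t ht)
  refine ⟨η, ?_, ?_⟩
  · rw [e1 0 le_rfl, hx0]
  · intro t
    constructor
    · rcases le_total 0 t with h | h
      · rw [e1 t h]; exact (hx t h).1
      · rw [e2 t h]; exact (hy (-t) (by linarith)).1
    · rcases lt_trichotomy t 0 with h | h | h
      · exact (d2 t h.le).hasDerivAt (Iic_mem_nhds h)
      · subst h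
        have := (d1 0 le_rfl).union (d2 0 le_rfl)
        rwa [Ici_union_Iic, hasDerivWithinAt_univ] at this
      · exact (d1 t h.le).hasDerivAt (Ici_mem_nhds h)

theorem noab : S_FWD → S_FLOWEX → S_PSI → S_NOAB := by
  intro hfwd hflow hpsi b D Γ _ g m V A hH hAb hpos hmean
  have key : ∀ i : Fin m, ∀ z ∈ D, V i z = 0 := by
    intro i z hz
    obtain ⟨x, hx⟩ := hfwd hH hAb hpos hmean (Pi.single i 1) z hz
    obtain ⟨y, hy⟩ := hfwd hH hAb hpos hmean (Pi.single i (-1)) z hz
    have ex : (fun p : Cn b => I • ∑ j, (Pi.single i (1 : ℝ) : Fin m → ℝ) j • V j p) =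
        fun p => I • V i p := by
      funext p
      rw [Finset.sum_eq_single i]
      · simp
      · intro j _ hj
        simp [Pi.single_eq_of_ne hj]
      · simp
    have ey : (fun p : Cn b => I • ∑ j, (Pi.single i (-1 : ℝ) : Fin m → ℝ) j • V j p) =
        fun p => -(I • V i p) := by
      funext p
      rw [Finset.sum_eq_single i]
      · simp
      · intro j _ hj
        simp [Pi.single_eq_of_ne hj]
      · simp
    rw [ex] at hx
    rw [ey] at hy
    obtain ⟨η, hη0, hη⟩ := glue_curve hx hy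
    have hL := hAb.inL i
    obtain ⟨φ, hφ⟩ := hflow hH (V i) hL
    have hF := hpsi D hH.dom.isOpen (V i) φ hL.1 hφ univ isOpen_univ η (fun t _ => hη t)
    have hdiff : Differentiable ℂ (fun ζ : ℂ => φ ζ.re (η ζ.im)) := fun ζ =>
      (hF ζ (mem_univ _)).differentiableAt
    have hb : Bornology.IsBounded (range fun ζ : ℂ => φ ζ.re (η ζ.im)) := by
      refine hH.dom.bdd.subset ?_
      rintro _ ⟨ζ, rfl⟩
      exact hφ.maps _ _ (hη _).1
    obtain ⟨c, hc⟩ := hdiff.exists_const_forall_eq_of_bounded hb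
    have h0 := hF 0 (mem_univ _)
    have e : (fun ζ : ℂ => φ ζ.re (η ζ.im)) = fun _ => c := funext hc
    rw [e] at h0
    have h1 := h0.unique (hasDerivAt_const (0 : ℂ) c)
    simp only [zero_re, zero_im] at h1
    rwa [hη0, hφ.zero z hz] at h1
  have h0 := hAb.indep.ne_zero ⟨0, hAb.pos⟩
  apply h0
  funext z
  by_cases hz : z ∈ D
  · exact key _ z hz
  · exact (hAb.inL _).2.1 z hz

end Pool.Agent.Helper71.Lin
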